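import Pool.Agent.Helper55.PS.Fin
import Pool.Agent.Helper55.PS.N3

/-!
# MP_c30cf5_nt: Q1 holds after a random sparse deletion of primes

`pr i` is the prime with index `i` (`pr 0 = 2`, `pr 1 = 3`, ...). For a set `R` of natural numbers,
`Q1Outside R` is the assertion of Q1 for the increasing sequence `a 1 < a 2 < ...` of the primes
outside `R`: the number of `k ≤ n` such that `a 1 + ... + a k` is prime is asymptotically equivalent
to `n / (2 ln n)`. (`Q1Outside ∅` is Q1 itself.)

Every prime `pr i` is deleted independently (event `del i`) with probability `τ i`, where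
`(log i)^100 / i ≤ τ i` for all large `i` and `τ i ≤ 1/2` for all `i`. Let `R` be the random set of
the deleted primes. Then almost surely Q1 holds for the sequence of the remaining primes, and `R` has
at most `2 ∑_{i < 2x} τ i` elements up to `x`, for all large `x`. (For `τ i = (log i)^100 / i` this is
`O((log x)^101)`.)
-/

open Finset Filter MeasureTheory ProbabilityTheory
open Pool.Agent.Helper55.PS

namespace Pool.Agent.Results.MP_c30cf5_nt.SparseDeletions

/-- Q1 holds almost surely for the primes that remain after a random deletion, however sparse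
(down to polylogarithmically many deleted primes). -/
theorem result {Ω : Type} [MeasurableSpace Ω] (μ : Measure Ω) [IsProbabilityMeasure μ]
    (del : ℕ → Set Ω) (τ : ℕ → ℝ) (hmeas : ∀ i, MeasurableSet (del i)) (hindep : iIndepSet del μ)
    (hprob : ∀ i, μ.real (del i) = τ i) (hhalf : ∀ i, τ i ≤ 1 / 2)
    (hlarge : ∀ᶠ i : ℕ in atTop, Real.log i ^ 100 / i ≤ τ i) :
    ∀ᵐ ω ∂μ, Q1Outside {p | ∃ i, ω ∈ del i ∧ pr i = p} ∧
      ∀ᶠ x : ℕ in atTop,
        (({p | ∃ i, ω ∈ del i ∧ pr i = p} ∩ Set.Icc 1 x).ncard : ℝ) ≤
          2 * ∑ i ∈ range (2 * x), τ i := by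
  filter_upwards [ae_Q1 hmeas hindep hprob hhalf hlarge, ae_count hmeas hindep hprob hlarge]
    with ω h1 h2
  exact ⟨h1, h2⟩

end Pool.Agent.Results.MP_c30cf5_nt.SparseDeletions
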